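import Pool.Agent.Lib.MP_af3183_lc.Final

/-!
Vertex cover gap `47/40` between graphs that are equivalent in counting logic with a linear number of
variables. `CEquiv k G H` is `G ≡^C_k H` and `vc` is the vertex cover number (`Lib/MP_af3183_lc/Logic.lean`).
-/

namespace Pool.Agent.Results.MP_af3183_lc.LinearLevelGap

open Pool.Agent.Lib.MP_af3183_lc

theorem result : ∃ δ : ℝ, 0 < δ ∧ ∃ n₀ : ℕ, ∀ n : ℕ, n₀ ≤ n →
    ∃ G H : SimpleGraph (Fin n), (∃ u v, H.Adj u v) ∧ CEquiv ⌊δ * n⌋₊ G H ∧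
      (47 / 40 : ℝ) * vc H ≤ vc G := linear_gap

end Pool.Agent.Results.MP_af3183_lc.LinearLevelGap
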