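import Pool.Agent.Lib.MP_af3183_lc.VT.Asm

/-!
Graphs that are equivalent in counting logic with `k` variables, where `k ≥ 4 + ε ^ (1 / (10 ε)) n`, have vertex
cover numbers whose ratio is at most `2 - ε`. `CEquiv k G H` is `G ≡^C_k H` and `vc` is the vertex cover number
(`Lib/MP_af3183_lc/Logic.lean`).
-/

namespace Pool.Agent.Results.MP_af3183_lc.SubTwoRatio

open Pool.Agent.Lib.MP_af3183_lc

theorem result (n k : ℕ) (G H : SimpleGraph (Fin n)) (ε : ℝ) (h0 : 0 < ε) (h1 : ε ≤ 1 / 64)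
    (hk : ε ^ (1 / (10 * ε)) * n + 4 ≤ k) (h : CEquiv k G H) : (vc G : ℝ) ≤ (2 - ε) * vc H :=
  VT.gap_upper h0 h1 hk h

end Pool.Agent.Results.MP_af3183_lc.SubTwoRatio
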